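import Mathlib

set_option autoImplicit false

/-!
# A Delone set in three-space with no period and quadratic patch-counting function

Combinatorial part: the set of defects in the lattice `ℤ ^ 3`.
-/

namespace Pool.Agent.H852.Patch

/-- Defects: in the layers at height `8 ^ k` the points whose first (`k` even) or second (`k` odd)
coordinate is divisible by `2 ^ k`. -/
def Def (z : Fin 3 → ℤ) : Prop :=
  ∃ k : ℕ, z 2 = 8 ^ k ∧ (if Even k then (2 : ℤ) ^ k ∣ z 0 else (2 : ℤ) ^ k ∣ z 1)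

/-- Two points look the same in the cube of side `2 n`. -/
def Same (n : ℕ) (z w : Fin 3 → ℤ) : Prop :=
  ∀ u : Fin 3 → ℤ, (∀ i, |u i| ≤ n) → (Def (z + u) ↔ Def (w + u))

/-- counting classes through a code. -/
lemma ncard_le_of_code {α β ι : Type*} [Nonempty β] (S : Set α) (f : α → β) (code : α → ι)
    (I : Finset ι) (hI : ∀ a ∈ S, code a ∈ I)
    (h : ∀ a ∈ S, ∀ b ∈ S, code a = code b → f a = f b) :
    (f '' S).Finite ∧ (f '' S).ncard ≤ I.card := by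
  classical
  let g : ι → β := fun i => if hi : ∃ a ∈ S, code a = i then f hi.choose else Classical.arbitrary β
  have hsub : f '' S ⊆ (I.image g : Finset β) := by
    rintro _ ⟨a, ha, rfl⟩
    simp only [Finset.coe_image, Set.mem_image, Finset.mem_coe]
    refine ⟨code a, hI a ha, ?_⟩
    have hi : ∃ a' ∈ S, code a' = code a := ⟨a, ha, rfl⟩
    simp only [g, dif_pos hi]
    exact h _ hi.choose_spec.1 _ ha hi.choose_spec.2
  have hfin : (f '' S).Finite := (I.image g).finite_toSet.subset hsub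
  refine ⟨hfin, ?_⟩
  calc (f '' S).ncard ≤ ((I.image g : Finset β) : Set β).ncard :=
        Set.ncard_le_ncard hsub (I.image g).finite_toSet
    _ = (I.image g).card := Set.ncard_coe_finset _
    _ ≤ I.card := Finset.card_image_le

/-- `k` is a visible layer. -/
def Vis (n : ℕ) (z : Fin 3 → ℤ) (k : ℕ) : Prop := |(8 : ℤ) ^ k - z 2| ≤ n

lemma gap {j k n : ℕ} {c : ℤ} (hjk : j < k) (hj : |(8 : ℤ) ^ j - c| ≤ n) (hk : |(8 : ℤ) ^ k - c| ≤ n) :
    8 ^ k ≤ 3 * n := by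
  obtain ⟨m, rfl⟩ : ∃ m, k = m + 1 := ⟨k - 1, by omega⟩
  have h1 : (8 : ℤ) ^ j ≤ 8 ^ m := pow_le_pow_right₀ (by norm_num) (by omega)
  rw [abs_le] at hj hk
  have h2 : (8 : ℤ) ^ (m + 1) = 8 * 8 ^ m := by ring
  have h3 : (8 : ℤ) ^ (m + 1) ≤ 3 * n := by
    have := hj.1; have := hj.2; have := hk.1; have := hk.2
    omega
  exact_mod_cast h3

lemma def_add_iff (z u : Fin 3 → ℤ) : Def (z + u) ↔
    ∃ k : ℕ, z 2 + u 2 = 8 ^ k ∧
      (if Even k then (2 : ℤ) ^ k ∣ z 0 + u 0 else (2 : ℤ) ^ k ∣ z 1 + u 1) := Iff.rfl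

lemma vis_of_eq {n : ℕ} {z u : Fin 3 → ℤ} {k : ℕ} (hu : ∀ i, |u i| ≤ (n : ℤ))
    (h : z 2 + u 2 = 8 ^ k) : Vis n z k := by
  unfold Vis
  rw [← h]
  simpa using hu 2

/-! ### Case A: two visible layers -/

def SA (n : ℕ) : Set (Fin 3 → ℤ) := {z | ∃ j k : ℕ, j < k ∧ Vis n z j ∧ Vis n z k}

def KA (n : ℕ) : ℕ := Nat.log 8 (3 * n)

lemma vis_le_KA {n : ℕ} {z : Fin 3 → ℤ} (hz : z ∈ SA n) {l : ℕ} (hl : Vis n z l) : l ≤ KA n := by
  obtain ⟨j, k, hjk, hj, hk⟩ := hz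
  have h8 : 8 ^ k ≤ 3 * n := gap hjk hj hk
  have hk' : k ≤ KA n := Nat.le_log_of_pow_le (by norm_num) h8
  rcases le_or_gt l j with h | h
  · omega
  · exact Nat.le_log_of_pow_le (by norm_num) (gap h hj hl)

def codeA (n : ℕ) (z : Fin 3 → ℤ) : ℤ × ℤ × ℤ := (z 2, z 0 % 2 ^ KA n, z 1 % 2 ^ KA n)

lemma dvd_iff_of_emod {a b c m M : ℤ} (hmM : m ∣ M) (h : a % M = b % M) :
    m ∣ a + c ↔ m ∣ b + c := by
  have h1 : m ∣ a - b := hmM.trans (Int.ModEq.dvd (show b ≡ a [ZMOD M] from h.symm))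
  constructor
  · intro h2
    have := dvd_sub h2 h1
    have e : a + c - (a - b) = b + c := by ring
    rwa [e] at this
  · intro h2
    have := dvd_add h2 h1
    have e : b + c + (a - b) = a + c := by ring
    rwa [e] at this

lemma sameA_aux {n : ℕ} {z w : Fin 3 → ℤ} (hz : z ∈ SA n) (h : codeA n z = codeA n w)
    {u : Fin 3 → ℤ} (hu : ∀ i, |u i| ≤ (n : ℤ)) (hd : Def (z + u)) : Def (w + u) := by
  simp only [codeA, Prod.mk.injEq] at h
  obtain ⟨h2, h0, h1⟩ := h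
  obtain ⟨k, hk, hc⟩ := hd
  have hk' : z 2 + u 2 = 8 ^ k := hk
  have hkK := vis_le_KA hz (vis_of_eq hu hk')
  have hdvd : (2 : ℤ) ^ k ∣ 2 ^ KA n := pow_dvd_pow _ hkK
  refine ⟨k, ?_, ?_⟩
  · show w 2 + u 2 = 8 ^ k
    rw [← h2]; exact hk'
  · by_cases he : Even k
    · rw [if_pos he] at hc ⊢
      exact (dvd_iff_of_emod hdvd h0).1 hc
    · rw [if_neg he] at hc ⊢
      exact (dvd_iff_of_emod hdvd h1).1 hc

lemma sameA {n : ℕ} {z w : Fin 3 → ℤ} (hz : z ∈ SA n) (hw : w ∈ SA n) (h : codeA n z = codeA n w) :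
    Same n z w := fun _ hu => ⟨sameA_aux hz h hu, sameA_aux hw h.symm hu⟩

noncomputable def IA (n : ℕ) : Finset (ℤ × ℤ × ℤ) :=
  Finset.Icc (-(n : ℤ)) (4 * n) ×ˢ (Finset.Ico (0 : ℤ) (2 ^ KA n) ×ˢ Finset.Ico (0 : ℤ) (2 ^ KA n))

lemma codeA_mem {n : ℕ} {z : Fin 3 → ℤ} (hz : z ∈ SA n) : codeA n z ∈ IA n := by
  obtain ⟨j, k, hjk, hj, hk⟩ := hz
  have h8 : 8 ^ k ≤ 3 * n := gap hjk hj hk
  have h8' : (8 : ℤ) ^ k ≤ 3 * n := by exact_mod_cast h8
  have hpos : (0 : ℤ) < 8 ^ k := by positivity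
  unfold Vis at hk
  rw [abs_le] at hk
  have hK : (0 : ℤ) < 2 ^ KA n := by positivity
  simp only [IA, codeA, Finset.mem_product, Finset.mem_Icc, Finset.mem_Ico]
  refine ⟨⟨by omega, by omega⟩, ⟨Int.emod_nonneg _ hK.ne', Int.emod_lt_of_pos _ hK⟩,
    ⟨Int.emod_nonneg _ hK.ne', Int.emod_lt_of_pos _ hK⟩⟩

lemma cardIA {n : ℕ} (hn : 1 ≤ n) : (IA n).card ≤ 18 * n ^ 2 := by
  have h1 : (IA n).card = (5 * n + 1) * (2 ^ KA n * 2 ^ KA n) := by
    simp only [IA, Finset.card_product, Int.card_Icc, Int.card_Ico]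
    congr 1
    omega
  rw [h1]
  have h2 : 8 ^ KA n ≤ 3 * n := Nat.pow_log_le_self 8 (by omega)
  have h3 : (2 : ℕ) ^ KA n * 2 ^ KA n ≤ 8 ^ KA n := by
    rw [← mul_pow]
    exact Nat.pow_le_pow_left (by norm_num) _
  calc (5 * n + 1) * (2 ^ KA n * 2 ^ KA n) ≤ (6 * n) * (3 * n) :=
        Nat.mul_le_mul (by omega) (h3.trans h2)
    _ = 18 * n ^ 2 := by ring

/-! ### Case B: exactly one visible layer -/

/-- the coordinate that matters in layer `k`. -/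
def co (k : ℕ) (z : Fin 3 → ℤ) : ℤ := if Even k then z 0 else z 1

lemma cond_iff (k : ℕ) (z u : Fin 3 → ℤ) :
    (if Even k then (2 : ℤ) ^ k ∣ z 0 + u 0 else (2 : ℤ) ^ k ∣ z 1 + u 1) ↔
      (2 : ℤ) ^ k ∣ co k z + co k u := by
  unfold co
  by_cases h : Even k
  · simp [h]
  · simp [h]

/-- exactly the layer `k` is visible. -/
def Only (n : ℕ) (z : Fin 3 → ℤ) (k : ℕ) : Prop := Vis n z k ∧ ∀ l, Vis n z l → l = k

lemma def_iff_of_only {n : ℕ} {z : Fin 3 → ℤ} {k : ℕ} (h : Only n z k) {u : Fin 3 → ℤ}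
    (hu : ∀ i, |u i| ≤ (n : ℤ)) :
    Def (z + u) ↔ u 2 = 8 ^ k - z 2 ∧ (2 : ℤ) ^ k ∣ co k z + co k u := by
  rw [def_add_iff]
  constructor
  · rintro ⟨l, hl, hc⟩
    have := h.2 l (vis_of_eq hu hl)
    subst this
    exact ⟨by linarith, (cond_iff _ _ _).1 hc⟩
  · rintro ⟨h1, h2⟩
    exact ⟨k, by linarith, (cond_iff _ _ _).2 h2⟩

/-- one visible layer, with small period. -/
def SB (n : ℕ) : Set (Fin 3 → ℤ) := {z | ∃ k, Only n z k ∧ 2 ^ k ≤ 2 * n}

open Classical in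
noncomputable def lay (n : ℕ) (z : Fin 3 → ℤ) : ℕ := if h : ∃ k, Only n z k then h.choose else 0

lemma lay_eq {n : ℕ} {z : Fin 3 → ℤ} {k : ℕ} (h : Only n z k) : lay n z = k := by
  have h' : ∃ k, Only n z k := ⟨k, h⟩
  unfold lay
  rw [dif_pos h']
  exact h.2 _ h'.choose_spec.1

noncomputable def codeB (n : ℕ) (z : Fin 3 → ℤ) : ℤ × ℤ :=
  (8 ^ lay n z - z 2, 2 ^ lay n z + co (lay n z) z % 2 ^ lay n z)

lemma pow_add_inj {k l : ℕ} {a b : ℤ} (ha : 0 ≤ a) (ha' : a < 2 ^ k) (hb : 0 ≤ b) (hb' : b < 2 ^ l)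
    (h : 2 ^ k + a = 2 ^ l + b) : k = l ∧ a = b := by
  have key : ∀ {k l : ℕ} {a b : ℤ}, 0 ≤ a → a < 2 ^ k → 0 ≤ b → b < 2 ^ l →
      2 ^ k + a = 2 ^ l + b → ¬ k < l := by
    intro k l a b ha ha' hb hb' h hkl
    have h1 : (2 : ℤ) ^ (k + 1) ≤ 2 ^ l := pow_le_pow_right₀ (by norm_num) (by omega)
    have h2 : (2 : ℤ) ^ (k + 1) = 2 * 2 ^ k := by ring
    linarith
  have h1 := key ha ha' hb hb' h
  have h2 := key hb hb' ha ha' h.symm
  have h3 : k = l := by omega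
  subst h3
  exact ⟨rfl, by linarith⟩

lemma sameB {n : ℕ} {z w : Fin 3 → ℤ} (hz : z ∈ SB n) (hw : w ∈ SB n) (h : codeB n z = codeB n w) :
    Same n z w := by
  obtain ⟨k, hk, -⟩ := hz
  obtain ⟨l, hl, -⟩ := hw
  simp only [codeB, lay_eq hk, lay_eq hl, Prod.mk.injEq] at h
  obtain ⟨h1, h2⟩ := h
  have hk2 : (0 : ℤ) < 2 ^ k := by positivity
  have hl2 : (0 : ℤ) < 2 ^ l := by positivity
  obtain ⟨hkl, hab⟩ := pow_add_inj (Int.emod_nonneg _ hk2.ne') (Int.emod_lt_of_pos _ hk2)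
    (Int.emod_nonneg _ hl2.ne') (Int.emod_lt_of_pos _ hl2) h2
  subst hkl
  intro u hu
  rw [def_iff_of_only hk hu, def_iff_of_only hl hu, h1, dvd_iff_of_emod (dvd_refl _) hab]

noncomputable def IB (n : ℕ) : Finset (ℤ × ℤ) :=
  Finset.Icc (-(n : ℤ)) n ×ˢ Finset.Ico (1 : ℤ) (4 * n)

lemma codeB_mem {n : ℕ} {z : Fin 3 → ℤ} (hz : z ∈ SB n) : codeB n z ∈ IB n := by
  obtain ⟨k, hk, hkn⟩ := hz
  have hkn' : (2 : ℤ) ^ k ≤ 2 * n := by exact_mod_cast hkn
  have hk2 : (0 : ℤ) < 2 ^ k := by positivity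
  have h1 := Int.emod_nonneg (co k z) hk2.ne'
  have h2 := Int.emod_lt_of_pos (co k z) hk2
  have h3 := hk.1
  unfold Vis at h3
  rw [abs_le] at h3
  simp only [codeB, lay_eq hk, IB, Finset.mem_product, Finset.mem_Icc, Finset.mem_Ico]
  exact ⟨h3, by omega, by omega⟩

lemma cardIB {n : ℕ} (hn : 1 ≤ n) : (IB n).card ≤ 12 * n ^ 2 := by
  have h1 : (IB n).card = (2 * n + 1) * (4 * n - 1) := by
    simp only [IB, Finset.card_product, Int.card_Icc, Int.card_Ico]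
    congr 1 <;> omega
  rw [h1]
  calc (2 * n + 1) * (4 * n - 1) ≤ (3 * n) * (4 * n) := Nat.mul_le_mul (by omega) (by omega)
    _ = 12 * n ^ 2 := by ring

/-! ### Case C: one visible layer with large period -/

def SC (n : ℕ) : Set (Fin 3 → ℤ) := {z | ∃ k, Only n z k ∧ 2 * n < 2 ^ k}

open Classical in
/-- position of the visible multiple of the period, if any. -/
noncomputable def pos (n : ℕ) (q x : ℤ) : ℤ :=
  if h : ∃ s : ℤ, |s| ≤ n ∧ q ∣ x + s then h.choose else n + 1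

lemma pos_spec {n : ℕ} {q x : ℤ} (hq : 2 * (n : ℤ) < q) {v : ℤ} (hv : |v| ≤ n) :
    q ∣ x + v ↔ v = pos n q x := by
  unfold pos
  by_cases h : ∃ s : ℤ, |s| ≤ n ∧ q ∣ x + s
  · rw [dif_pos h]
    obtain ⟨h1, h2⟩ := h.choose_spec
    constructor
    · intro h3
      have h4 : q ∣ v - h.choose := by
        have := dvd_sub h3 h2
        have e : x + v - (x + h.choose) = v - h.choose := by ring
        rwa [e] at this
      have h5 : |v - h.choose| < q := by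
        rw [abs_le] at h1 hv
        rw [abs_lt]
        constructor <;> omega
      have := Int.eq_zero_of_abs_lt_dvd h4 h5
      omega
    · intro h3
      rw [h3]; exact h2
  · rw [dif_neg h]
    constructor
    · intro h3
      exact absurd ⟨v, hv, h3⟩ h
    · intro h3
      rw [abs_le] at hv
      omega

lemma pos_mem (n : ℕ) (q x : ℤ) : pos n q x ∈ Finset.Icc (-(n : ℤ)) (n + 1) := by
  unfold pos
  by_cases h : ∃ s : ℤ, |s| ≤ n ∧ q ∣ x + s
  · rw [dif_pos h, Finset.mem_Icc]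
    have := h.choose_spec.1
    rw [abs_le] at this
    constructor <;> omega
  · rw [dif_neg h, Finset.mem_Icc]
    constructor <;> omega

noncomputable def codeC (n : ℕ) (z : Fin 3 → ℤ) : ℤ × ℕ × ℤ :=
  (8 ^ lay n z - z 2, lay n z % 2, pos n (2 ^ lay n z) (co (lay n z) z))

lemma co_parity {k l : ℕ} (h : k % 2 = l % 2) (u : Fin 3 → ℤ) : co k u = co l u := by
  unfold co
  have : Even k ↔ Even l := by rw [Nat.even_iff, Nat.even_iff, h]
  simp [this]

lemma abs_co {n : ℕ} {u : Fin 3 → ℤ} (hu : ∀ i, |u i| ≤ (n : ℤ)) (k : ℕ) : |co k u| ≤ n := by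
  unfold co
  split_ifs
  · exact hu 0
  · exact hu 1

lemma sameC {n : ℕ} {z w : Fin 3 → ℤ} (hz : z ∈ SC n) (hw : w ∈ SC n) (h : codeC n z = codeC n w) :
    Same n z w := by
  obtain ⟨k, hk, hk'⟩ := hz
  obtain ⟨l, hl, hl'⟩ := hw
  simp only [codeC, lay_eq hk, lay_eq hl, Prod.mk.injEq] at h
  obtain ⟨h1, h2, h3⟩ := h
  have hk2 : 2 * (n : ℤ) < 2 ^ k := by exact_mod_cast hk'
  have hl2 : 2 * (n : ℤ) < 2 ^ l := by exact_mod_cast hl'
  intro u hu
  rw [def_iff_of_only hk hu, def_iff_of_only hl hu, h1, pos_spec hk2 (abs_co hu k),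
    pos_spec hl2 (abs_co hu l), h3, co_parity h2]

noncomputable def IC (n : ℕ) : Finset (ℤ × ℕ × ℤ) :=
  Finset.Icc (-(n : ℤ)) n ×ˢ (Finset.range 2 ×ˢ Finset.Icc (-(n : ℤ)) (n + 1))

lemma codeC_mem {n : ℕ} {z : Fin 3 → ℤ} (hz : z ∈ SC n) : codeC n z ∈ IC n := by
  obtain ⟨k, hk, hkn⟩ := hz
  have h3 := hk.1
  unfold Vis at h3
  rw [abs_le] at h3
  simp only [codeC, lay_eq hk, IC, Finset.mem_product, Finset.mem_range]
  exact ⟨Finset.mem_Icc.2 h3, by omega, pos_mem _ _ _⟩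

lemma cardIC {n : ℕ} (hn : 1 ≤ n) : (IC n).card ≤ 24 * n ^ 2 := by
  have h1 : (IC n).card = (2 * n + 1) * (2 * (2 * n + 2)) := by
    simp only [IC, Finset.card_product, Int.card_Icc, Finset.card_range]
    congr 1
    · omega
    · congr 1; omega
  rw [h1]
  calc (2 * n + 1) * (2 * (2 * n + 2)) ≤ (3 * n) * (2 * (4 * n)) :=
        Nat.mul_le_mul (by omega) (by omega)
    _ = 24 * n ^ 2 := by ring

/-! ### Case D: nothing visible -/

def SD (n : ℕ) : Set (Fin 3 → ℤ) := {z | ∀ k, ¬ Vis n z k}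

lemma sameD {n : ℕ} {z w : Fin 3 → ℤ} (hz : z ∈ SD n) (hw : w ∈ SD n) : Same n z w := by
  intro u hu
  constructor
  · rintro ⟨k, hk, -⟩
    exact absurd (vis_of_eq hu hk) (hz k)
  · rintro ⟨k, hk, -⟩
    exact absurd (vis_of_eq hu hk) (hw k)

lemma cover (n : ℕ) (z : Fin 3 → ℤ) : z ∈ SA n ∪ (SB n ∪ (SC n ∪ SD n)) := by
  by_cases hD : ∀ k, ¬ Vis n z k
  · exact Or.inr (Or.inr (Or.inr hD))
  push Not at hD
  obtain ⟨k, hk⟩ := hD
  by_cases hO : ∀ l, Vis n z l → l = k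
  · rcases le_or_gt (2 ^ k) (2 * n) with h | h
    · exact Or.inr (Or.inl ⟨k, ⟨hk, hO⟩, h⟩)
    · exact Or.inr (Or.inr (Or.inl ⟨k, ⟨hk, hO⟩, h⟩))
  · push Not at hO
    obtain ⟨l, hl, hlk⟩ := hO
    rcases lt_or_gt_of_ne hlk with h | h
    · exact Or.inl ⟨l, k, h, hl, hk⟩
    · exact Or.inl ⟨k, l, h, hk, hl⟩

/-- The number of classes is at most `55 n ^ 2`. -/
theorem count {β : Type*} [Nonempty β] {n : ℕ} (hn : 1 ≤ n) (f : (Fin 3 → ℤ) → β)
    (hf : ∀ z w, Same n z w → f z = f w) :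
    (Set.range f).Finite ∧ (Set.range f).ncard ≤ 55 * n ^ 2 := by
  obtain ⟨a1, a2⟩ := ncard_le_of_code (SA n) f (codeA n) (IA n) (fun _ => codeA_mem)
    (fun a ha b hb h => hf a b (sameA ha hb h))
  obtain ⟨b1, b2⟩ := ncard_le_of_code (SB n) f (codeB n) (IB n) (fun _ => codeB_mem)
    (fun a ha b hb h => hf a b (sameB ha hb h))
  obtain ⟨c1, c2⟩ := ncard_le_of_code (SC n) f (codeC n) (IC n) (fun _ => codeC_mem)
    (fun a ha b hb h => hf a b (sameC ha hb h))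
  obtain ⟨d1, d2⟩ := ncard_le_of_code (SD n) f (fun _ => (0 : ℕ)) {0} (fun _ _ => by simp)
    (fun a ha b hb _ => hf a b (sameD ha hb))
  have hr : Set.range f = f '' SA n ∪ (f '' SB n ∪ (f '' SC n ∪ f '' SD n)) := by
    rw [← Set.image_union, ← Set.image_union, ← Set.image_union, ← Set.image_univ]
    congr 1
    ext z
    simpa using cover n z
  rw [hr]
  refine ⟨a1.union (b1.union (c1.union d1)), ?_⟩
  have e1 := Set.ncard_union_le (f '' SA n) (f '' SB n ∪ (f '' SC n ∪ f '' SD n))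
  have e2 := Set.ncard_union_le (f '' SB n) (f '' SC n ∪ f '' SD n)
  have e3 := Set.ncard_union_le (f '' SC n) (f '' SD n)
  have i1 := cardIA hn
  have i2 := cardIB hn
  have i3 := cardIC hn
  simp only [Finset.card_singleton] at d2
  have : 1 ≤ n ^ 2 := Nat.one_le_pow _ _ hn
  omega

/-! ### No period -/

lemma def_pow_mem (k : ℕ) : Def ![0, 0, 8 ^ k] := by
  refine ⟨k, by simp, ?_⟩
  by_cases h : Even k
  · rw [if_pos h]; simp
  · rw [if_neg h]; simp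

lemma no_period {v : Fin 3 → ℤ} (h : ∀ z, Def (z + v) ↔ Def z) : v = 0 := by
  have h2 : v 2 = 0 := by
    by_contra hne
    obtain ⟨k, hk⟩ : ∃ k : ℕ, |v 2| < 8 ^ k :=
      ⟨(v 2).natAbs, by
        have := Nat.lt_pow_self (n := (v 2).natAbs) (a := 8) (by norm_num)
        rw [Int.abs_eq_natAbs]
        exact_mod_cast this⟩
    obtain ⟨l, hl, -⟩ := (h ![0, 0, 8 ^ (k + 1)]).2 (def_pow_mem (k + 1))
    have hl' : (8 : ℤ) ^ (k + 1) + v 2 = 8 ^ l := by simpa using hl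
    rw [abs_lt] at hk
    have e : (8 : ℤ) ^ (k + 1) = 8 * 8 ^ k := by ring
    rcases lt_trichotomy l (k + 1) with h3 | h3 | h3
    · have : (8 : ℤ) ^ l ≤ 8 ^ k := pow_le_pow_right₀ (by norm_num) (by omega)
      linarith
    · subst h3
      exact hne (by linarith)
    · have h4 : (8 : ℤ) ^ (k + 2) ≤ 8 ^ l := pow_le_pow_right₀ (by norm_num) (by omega)
      have e2 : (8 : ℤ) ^ (k + 2) = 64 * 8 ^ k := by ring
      linarith
  have key : ∀ k : ℕ, (2 : ℤ) ^ k ∣ co k v := by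
    intro k
    obtain ⟨l, hl, hc⟩ := (h ![0, 0, 8 ^ k]).2 (def_pow_mem k)
    have hl' : (8 : ℤ) ^ k = 8 ^ l := by simpa [h2] using hl
    have hkl : k = l := by
      have : (8 : ℕ) ^ k = 8 ^ l := by exact_mod_cast hl'
      exact Nat.pow_right_injective (le_refl _ |>.trans (by norm_num : 2 ≤ 8)) this
    subst hkl
    unfold co
    by_cases he : Even k
    · rw [if_pos he] at hc ⊢
      simpa using hc
    · rw [if_neg he] at hc ⊢
      simpa using hc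
  have small : ∀ x : ℤ, (∀ k : ℕ, ∃ l, k ≤ l ∧ (2 : ℤ) ^ l ∣ x) → x = 0 := by
    intro x hx
    obtain ⟨l, hl, hd⟩ := hx x.natAbs
    by_contra hne
    have h3 : (2 ^ l : ℕ) ∣ x.natAbs := by
      have := Int.natAbs_dvd_natAbs.2 hd
      simpa [Int.natAbs_pow] using this
    have h4 := Nat.le_of_dvd (Int.natAbs_pos.2 hne) h3
    have h5 := Nat.lt_pow_self (n := l) (a := 2) (by norm_num)
    omega
  have h0 : v 0 = 0 := by
    apply small
    intro k
    refine ⟨2 * k, by omega, ?_⟩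
    have := key (2 * k)
    unfold co at this
    rwa [if_pos (even_two_mul k)] at this
  have h1 : v 1 = 0 := by
    apply small
    intro k
    refine ⟨2 * k + 1, by omega, ?_⟩
    have := key (2 * k + 1)
    unfold co at this
    rwa [if_neg (by simp)] at this
  funext i
  fin_cases i
  · exact h0
  · exact h1
  · exact h2

lemma not_def_succ {z : Fin 3 → ℤ} (hz : Def z) : ¬ Def (z + ![0, 0, 1]) := by
  obtain ⟨k, hk, -⟩ := hz
  rintro ⟨l, hl, -⟩
  have hl' : z 2 + 1 = 8 ^ l := by simpa using hl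
  rw [hk] at hl'
  rcases k with _ | k
  · rcases l with _ | l
    · norm_num at hl'
    · rw [pow_succ] at hl'
      have : (0 : ℤ) < 8 ^ l := by positivity
      omega
  · rcases l with _ | l
    · have : (0 : ℤ) < 8 ^ (k + 1) := by positivity
      simp at hl'
    · rw [pow_succ, pow_succ] at hl'
      omega

end Pool.Agent.H852.Patch
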